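import Mathlib

/-!
# Two-colourings of the rationals and infinite monochromatic sumsets

We show that every 2-colouring of the rationals admits an infinite set `X`
such that `X + X` is monochromatic.

A colouring is `Bad` if there is no such set.  For a free ultrafilter `U` on
the rationals let `f t` and `g t` be the limits along `U` of `c (x + t)` and
`c (2 x + t)`.
-/

set_option autoImplicit false

namespace Pool.Agent.Q213.OW

open Filter Set Topology

/-- A colouring with no infinite `X` such that `X + X` is monochromatic. -/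
def Bad (c : ℚ → Bool) : Prop :=
  ∀ X : Set ℚ, X.Infinite → ¬ ∃ i : Bool, ∀ x ∈ X, ∀ y ∈ X, c (x + y) = i

theorem build {c : ℚ → Bool} (hc : Bad c) (β : Bool) (P : ℚ → Prop)
    (hP : ∀ u, P u → c (u + u) = β)
    (h : ∀ s : Finset ℚ, (∀ x ∈ s, P x) →
      ∃ y, P y ∧ ∀ x ∈ s, x ≠ y ∧ c (x + y) = β) : False := by
  obtain ⟨f, hf, hr⟩ :=
    exists_seq_of_forall_finset_exists P (fun x y => x ≠ y ∧ c (x + y) = β) h
  have hinj : Function.Injective f := by
    intro m n hmn
    by_contra hne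
    rcases lt_or_gt_of_ne hne with hlt | hlt
    · exact (hr m n hlt).1 hmn
    · exact (hr n m hlt).1 hmn.symm
  refine hc (Set.range f) (Set.infinite_range_of_injective hinj) ⟨β, ?_⟩
  rintro _ ⟨m, rfl⟩ _ ⟨n, rfl⟩
  rcases lt_trichotomy m n with hlt | heq | hlt
  · exact (hr m n hlt).2
  · subst heq
    exact hP _ (hf m)
  · rw [add_comm]
    exact (hr n m hlt).2

/-- `f` and `g` are the limits of the translates of `c` at `x` and at `2 x`
along the free ultrafilter `U`. -/
structure Lim (c : ℚ → Bool) (U : Ultrafilter ℚ) (f g : ℚ → Bool) : Prop where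
  np : (U : Filter ℚ) ≤ cofinite
  h1 : ∀ t, ∀ᶠ x in (U : Filter ℚ), c (x + t) = f t
  h2 : ∀ t, ∀ᶠ x in (U : Filter ℚ), c (2 * x + t) = g t

theorem exlim (U : Ultrafilter ℚ) (h : ℚ → Bool) :
    ∃ b, ∀ᶠ x in (U : Filter ℚ), h x = b := by
  have hor : ∀ᶠ x in (U : Filter ℚ), h x = true ∨ h x = false :=
    Eventually.of_forall (fun x => by cases h x <;> simp)
  rcases Ultrafilter.eventually_or.1 hor with h1 | h1
  · exact ⟨true, h1⟩
  · exact ⟨false, h1⟩

theorem exLim (c : ℚ → Bool) (U : Ultrafilter ℚ) (hU : (U : Filter ℚ) ≤ cofinite) :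
    ∃ f g : ℚ → Bool, Lim c U f g := by
  choose f hf using fun t => exlim U (fun x => c (x + t))
  choose g hg using fun t => exlim U (fun x => c (2 * x + t))
  exact ⟨f, g, hU, hf, hg⟩

theorem ne_ev {U : Ultrafilter ℚ} (hU : (U : Filter ℚ) ≤ cofinite) (a : ℚ) :
    ∀ᶠ x in (U : Filter ℚ), x ≠ a := by
  have h : ∀ᶠ x in (cofinite : Filter ℚ), x ≠ a := by
    rw [Filter.eventually_cofinite]
    simp
  exact hU h

/-- The limit of `f (t + x)` is different from `g t`. -/
theorem L1 {c : ℚ → Bool} (hc : Bad c) {U : Ultrafilter ℚ} {f g : ℚ → Bool}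
    (hL : Lim c U f g) (t : ℚ) : ∀ᶠ x in (U : Filter ℚ), f (t + x) ≠ g t := by
  by_contra hcon
  have hev : ∀ᶠ x in (U : Filter ℚ), f (t + x) = g t := by
    by_contra h2
    exact hcon (Ultrafilter.eventually_not.2 h2)
  refine build hc (g t) (fun u => f (t / 2 + u) = g t ∧ c (u + u) = g t)
    (fun u hu => hu.2) ?_
  intro s hs
  have hfin : ∀ᶠ x in (U : Filter ℚ), ∀ u ∈ s,
      x ≠ u - t / 2 ∧ c (x + (u + t / 2)) = f (u + t / 2) := by
    rw [Filter.eventually_all_finset]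
    intro u _
    exact (ne_ev hL.np _).and (hL.h1 _)
  obtain ⟨x, ⟨hx1, hx2⟩, hx3⟩ := ((hev.and (hL.h2 t)).and hfin).exists
  refine ⟨t / 2 + x, ⟨?_, ?_⟩, ?_⟩
  · rw [← hx1]; congr 1; ring
  · rw [← hx2]; congr 1; ring
  · intro u hu
    obtain ⟨h3, h4⟩ := hx3 u hu
    refine ⟨?_, ?_⟩
    · intro he
      apply h3
      rw [he]; ring
    · have e1 : u + (t / 2 + x) = x + (u + t / 2) := by ring
      rw [e1, h4, ← (hs u hu).1]
      congr 1; ring

/-- If `f (t + s) ≠ f s` on a large enough finite set then `g (2 t) ≠ g t`. -/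
theorem L2 {c : ℚ → Bool} (hc : Bad c) {U : Ultrafilter ℚ} {f g : ℚ → Bool}
    (hL : Lim c U f g) :
    ∃ F : Finset ℚ, ∀ t, (∀ s ∈ F, f (t + s) ≠ f s) → g (2 * t) ≠ g t := by
  by_contra hcon
  push Not at hcon
  have hβ : ∃ β : Bool, ∀ F : Finset ℚ, ∃ t, (∀ s ∈ F, f (t + s) ≠ f s) ∧
      g (2 * t) = β ∧ g t = β := by
    by_contra hno
    push Not at hno
    obtain ⟨F1, h1⟩ := hno true
    obtain ⟨F2, h2⟩ := hno false
    obtain ⟨t, ht, hg⟩ := hcon (F1 ∪ F2)
    have a1 := h1 t (fun s hs => ht s (Finset.mem_union_left _ hs))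
    have a2 := h2 t (fun s hs => ht s (Finset.mem_union_right _ hs))
    rw [hg] at a1 a2
    cases hh : g t with
    | true => exact a1 hh hh
    | false => exact a2 hh hh
  obtain ⟨β, hβ⟩ := hβ
  refine build hc β (fun u => f u ≠ β ∧ c (u + u) = β) (fun u hu => hu.2) ?_
  intro s hs
  obtain ⟨t, ht, ht2, ht1⟩ := hβ s
  have hfin : ∀ᶠ x in (U : Filter ℚ), ∀ u ∈ s,
      x ≠ u - t ∧ c (x + (t + u)) = f (t + u) := by
    rw [Filter.eventually_all_finset]
    intro u _
    exact (ne_ev hL.np _).and (hL.h1 _)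
  obtain ⟨x, ⟨hx1, hx2⟩, hx3⟩ := (((L1 hc hL t).and (hL.h2 (2 * t))).and hfin).exists
  refine ⟨t + x, ⟨?_, ?_⟩, ?_⟩
  · rw [← ht1]; exact hx1
  · rw [← ht2, ← hx2]; congr 1; ring
  · intro u hu
    obtain ⟨h3, h4⟩ := hx3 u hu
    refine ⟨?_, ?_⟩
    · intro he
      apply h3
      rw [he]; ring
    · have e1 : u + (t + x) = x + (t + u) := by ring
      rw [e1, h4]
      have h5 := ht u hu
      have h6 := (hs u hu).1
      revert h5 h6
      cases f (t + u) <;> cases f u <;> cases β <;> simp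

end Pool.Agent.Q213.OW
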