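import Pool.Agent.Q213.OW.Sep

/-!
# Every 2-colouring of the rationals has an infinite `X` with `X + X` monochromatic
-/

set_option autoImplicit false

namespace Pool.Agent.Q213.OW

open Filter Set Topology

/-- The even elements of absolute value at most one. -/
def BB : Set ℚ := {x | Ev x ∧ |x| ≤ 1}

/-- The pattern sets. -/
def VV (c : ℚ → Bool) (F : Finset ℚ) (f g : ℚ → Bool) : Set ℚ :=
  {v | v ∈ BB ∧ ∀ t ∈ F, c (v + t) = xor (c v) (f t) ∧ c (2 * v + t) = xor (c v) (g t)}

theorem VV_mid {c : ℚ → Bool} (hc : Bad c) (F : Finset ℚ) (f g : ℚ → Bool)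
    (W : Ultrafilter ℚ) (hW : (W : Filter ℚ) ≤ cofinite)
    (hV : ∀ᶠ z in (W : Filter ℚ), 2 * z ∈ VV c F f g) :
    ∀ᶠ z in (W : Filter ℚ), ∀ᶠ y in (W : Filter ℚ), z + y ∈ VV c F f g := by
  classical
  obtain ⟨a, b, hL⟩ := exLim c W hW
  set W2 : Ultrafilter ℚ := W.map (fun v => 2 * v) with hW2def
  have hinj : Function.Injective (fun v : ℚ => 2 * v) := by
    intro x y hxy
    simpa using hxy
  have hW2 : (W2 : Filter ℚ) ≤ cofinite := by
    rw [hW2def, Ultrafilter.coe_map]
    exact (Filter.map_mono hW).trans hinj.tendsto_cofinite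
  obtain ⟨a2, b2, hL2⟩ := exLim c W2 hW2
  have ha2 : ∀ t, a2 t = b t := by
    intro t
    have h1 := hL2.h1 t
    rw [hW2def, Ultrafilter.coe_map, Filter.eventually_map] at h1
    obtain ⟨x, h2, h3⟩ := (h1.and (hL.h2 t)).exists
    rw [← h2, ← h3]
  have hb2 : ∀ t, ∀ᶠ x in (W : Filter ℚ), c (4 * x + t) = b2 t := by
    intro t
    have h1 := hL2.h2 t
    rw [hW2def, Ultrafilter.coe_map, Filter.eventually_map] at h1
    filter_upwards [h1] with x hx
    rw [← hx]; congr 1; ring
  -- relations between the limits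
  have hf : ∀ t ∈ F, b t = xor (b 0) (f t) := by
    intro t ht
    obtain ⟨x, ⟨h1, h2⟩, h3⟩ := ((hV.and (hL.h2 t)).and (hL.h2 0)).exists
    rw [← h2, ← h3, add_zero]
    exact (h1.2 t ht).1
  have hg : ∀ t ∈ F, b2 t = xor (b 0) (g t) := by
    intro t ht
    obtain ⟨x, ⟨h1, h2⟩, h3⟩ := ((hV.and (hb2 t)).and (hL.h2 0)).exists
    rw [← h2, ← h3, add_zero, ← (h1.2 t ht).2]
    congr 1; ring
  -- parity
  have hpar : (∀ᶠ z in (W : Filter ℚ), Ev z) ∨ (∀ᶠ z in (W : Filter ℚ), ¬ Ev z) := by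
    have hor : ∀ᶠ z in (W : Filter ℚ), Ev z ∨ ¬ Ev z := Eventually.of_forall (fun z => em _)
    exact Ultrafilter.eventually_or.1 hor
  have hBB : ∀ᶠ z in (W : Filter ℚ), ∀ᶠ y in (W : Filter ℚ), z + y ∈ BB := by
    have hkey : ∀ᶠ z in (W : Filter ℚ), ∀ᶠ y in (W : Filter ℚ), Ev (z + y) := by
      rcases hpar with hp | hp
      · filter_upwards [hp] with z hz
        filter_upwards [hp] with y hy
        exact ev_add hz hy
      · filter_upwards [hp, hV] with z hz hz2
        filter_upwards [hp, hV] with y hy hy2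
        have e1 : 2 * z / 2 = z := by ring
        have e2 : 2 * y / 2 = y := by ring
        have i1 := hz2.1.1.half
        have i2 := hy2.1.1.half
        rw [e1] at i1
        rw [e2] at i2
        exact ev_add_of_not i1 i2 hz hy
    filter_upwards [hkey, hV] with z hz hz2
    filter_upwards [hz, hV] with y hy hy2
    refine ⟨hy, ?_⟩
    have h1 := hz2.1.2
    have h2 := hy2.1.2
    rw [abs_mul, abs_two] at h1 h2
    calc |z + y| ≤ |z| + |y| := abs_add_le z y
      _ ≤ 1 := by linarith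
  have hz0 : ∀ᶠ z in (W : Filter ℚ), ∀ t ∈ F, a (z + t) ≠ b t ∧ b (2 * z + t) ≠ b2 t := by
    rw [Filter.eventually_all_finset]
    intro t _
    have h1 := L1 hc hL t
    have h2 := L1 hc hL2 t
    rw [hW2def, Ultrafilter.coe_map, Filter.eventually_map] at h2
    filter_upwards [h1, h2] with z hz1 hz2
    refine ⟨?_, ?_⟩
    · rw [add_comm]; exact hz1
    · rw [ha2] at hz2
      rw [add_comm]; exact hz2
  filter_upwards [hz0, L1 hc hL 0, hBB] with z hz1 hz2 hz3
  have hfin : ∀ᶠ y in (W : Filter ℚ), ∀ t ∈ F,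
      c (y + (z + t)) = a (z + t) ∧ c (2 * y + (2 * z + t)) = b (2 * z + t) := by
    rw [Filter.eventually_all_finset]
    intro t _
    exact (hL.h1 _).and (hL.h2 _)
  filter_upwards [hz3, hfin, hL.h1 z] with y hy1 hy2 hy3
  refine ⟨hy1, ?_⟩
  intro t ht
  obtain ⟨e1, e2⟩ := hy2 t ht
  obtain ⟨d1, d2⟩ := hz1 t ht
  have g1 := hf t ht
  have g2 := hg t ht
  rw [zero_add] at hz2
  have i1 : z + y + t = y + (z + t) := by ring
  have i2 : 2 * (z + y) + t = 2 * y + (2 * z + t) := by ring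
  have i3 : z + y = y + z := by ring
  rw [i1, i2, e1, e2, i3, hy3]
  rw [g1] at d1
  rw [g2] at d2
  constructor
  · revert d1 hz2
    cases a (z + t) <;> cases b 0 <;> cases f t <;> cases a z <;> simp
  · revert d2 hz2
    cases b (2 * z + t) <;> cases b 0 <;> cases g t <;> cases a z <;> simp

theorem VV_good {c : ℚ → Bool} (hc : Bad c) (F : Finset ℚ) (f g : ℚ → Bool)
    (hinf : (VV c F f g).Infinite) : Good (VV c F f g) :=
  ⟨hinf, fun _ hv => hv.1.1, fun _ hv => hv.1.2, VV_mid hc F f g⟩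

/-- Translating by a suitable element changes the pattern to its opposite. -/
theorem L3 {c : ℚ → Bool} (hc : Bad c) {U : Ultrafilter ℚ} {f g : ℚ → Bool}
    (hL : Lim c U f g) (hB : ∀ᶠ x in (U : Filter ℚ), x ∈ BB) (F : Finset ℚ) :
    ∃ w : ℚ, (∀ᶠ x in (U : Filter ℚ), x + w ∈ BB) ∧
      ∀ t ∈ F, f (w + t) ≠ f t ∧ g (2 * w + t) ≠ g t := by
  classical
  set V : Set ℚ := VV c F (fun t => xor (f 0) (f t)) (fun t => xor (f 0) (g t)) with hVdef
  have hUV : ∀ᶠ x in (U : Filter ℚ), x ∈ V := by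
    have hfin : ∀ᶠ x in (U : Filter ℚ), ∀ t ∈ F,
        c (x + t) = f t ∧ c (2 * x + t) = g t := by
      rw [Filter.eventually_all_finset]
      intro t _
      exact (hL.h1 _).and (hL.h2 _)
    filter_upwards [hB, hfin, hL.h1 0] with x hx1 hx2 hx3
    rw [add_zero] at hx3
    refine ⟨hx1, ?_⟩
    intro t ht
    obtain ⟨e1, e2⟩ := hx2 t ht
    rw [e1, e2, hx3]
    constructor
    · change f t = xor (f 0) (xor (f 0) (f t))
      cases f 0 <;> cases f t <;> rfl
    · change g t = xor (f 0) (xor (f 0) (g t))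
      cases f 0 <;> cases g t <;> rfl
  have hinf : V.Infinite := by
    intro hfin
    have h1 : ∀ᶠ x in (cofinite : Filter ℚ), x ∉ V := hfin.eventually_cofinite_notMem
    obtain ⟨x, hx1, hx2⟩ := ((h1.filter_mono hL.np).and hUV).exists
    exact hx1 hx2
  have hV : Good V := VV_good hc F _ _ hinf
  obtain ⟨S, hS, hsh⟩ := shifts hc hV
  have hev : ∀ᶠ x in (U : Filter ℚ), ∃ w ∈ S, x + w ∈ V ∧ c (x + w) ≠ c x := by
    filter_upwards [hUV] with x hx
    exact hsh x hx
  rw [Ultrafilter.eventually_exists_mem_iff hS] at hev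
  obtain ⟨w, _, hw⟩ := hev
  refine ⟨w, ?_, ?_⟩
  · filter_upwards [hw] with x hx
    exact hx.1.1
  · intro t ht
    obtain ⟨x, ⟨⟨⟨⟨h1, h2⟩, h3⟩, h4⟩, h5⟩, h6⟩ :=
      (((((hw.and hUV).and (hL.h1 (w + t))).and (hL.h1 t)).and (hL.h2 (2 * w + t))).and
        (hL.h2 t)).exists
    have p1 := (h1.1.2 t ht)
    have p2 := (h2.2 t ht)
    have i1 : x + w + t = x + (w + t) := by ring
    have i2 : 2 * (x + w) + t = 2 * x + (2 * w + t) := by ring
    rw [i1, i2, h3, h5] at p1
    rw [h4, h6] at p2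
    have h7 := h1.2
    constructor
    · rw [p1.1, p2.1]
      revert h7
      cases c (x + w) <;> cases c x <;> simp
    · rw [p1.2, p2.2]
      revert h7
      cases c (x + w) <;> cases c x <;> simp

/-- The pattern seen at `x` and at `2 x`. -/
def pat (c : ℚ → Bool) (x : ℚ) : ℚ × Bool → Bool :=
  fun p => if p.2 then c (2 * x + p.1) else c (x + p.1)

/-- The set of limit patterns. -/
def PP (c : ℚ → Bool) : Set (ℚ × Bool → Bool) :=
  {P | MapClusterPt P (cofinite ⊓ 𝓟 BB) (pat c)}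

theorem PP_iff (c : ℚ → Bool) (P : ℚ × Bool → Bool) :
    P ∈ PP c ↔ ∃ U : Ultrafilter ℚ, Lim c U (fun t => P (t, false)) (fun t => P (t, true)) ∧
      ∀ᶠ x in (U : Filter ℚ), x ∈ BB := by
  unfold PP
  rw [Set.mem_ofPred_eq, mapClusterPt_iff_ultrafilter]
  constructor
  · rintro ⟨U, hU, hT⟩
    rw [tendsto_pi_nhds] at hT
    refine ⟨U, ⟨hU.trans inf_le_left, ?_, ?_⟩, hU (mem_inf_of_right (mem_principal_self _))⟩
    · intro t
      have h := hT (t, false)
      rw [nhds_discrete, tendsto_pure] at h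
      filter_upwards [h] with x hx
      simpa [pat] using hx
    · intro t
      have h := hT (t, true)
      rw [nhds_discrete, tendsto_pure] at h
      filter_upwards [h] with x hx
      simpa [pat] using hx
  · rintro ⟨U, hL, hB⟩
    refine ⟨U, le_inf hL.np (le_principal_iff.2 hB), ?_⟩
    rw [tendsto_pi_nhds]
    rintro ⟨t, i⟩
    rw [nhds_discrete, tendsto_pure]
    cases i with
    | false =>
      filter_upwards [hL.h1 t] with x hx
      simpa [pat] using hx
    | true =>
      filter_upwards [hL.h2 t] with x hx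
      simpa [pat] using hx

theorem PP_closed (c : ℚ → Bool) : IsClosed (PP c) := by
  unfold PP MapClusterPt
  exact isClosed_setOfPred_clusterPt

theorem BB_infinite : BB.Infinite := by
  have hinj : Function.Injective (fun n : ℕ => (2 : ℚ) / 7 ^ (n + 1)) := by
    intro m n hmn
    have h1 : (7 : ℚ) ^ (m + 1) = 7 ^ (n + 1) := by
      have h2 : (2 : ℚ) / 7 ^ (m + 1) = 2 / 7 ^ (n + 1) := hmn
      field_simp at h2
      exact h2.symm
    have h3 := pow_right_injective₀ (by norm_num : (0 : ℚ) < 7) (by norm_num) h1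
    omega
  refine (Set.infinite_range_of_injective hinj).mono ?_
  rintro _ ⟨n, rfl⟩
  refine ⟨⟨n + 1, 1, ?_⟩, ?_⟩
  · have : (7 : ℚ) ^ (n + 1) ≠ 0 := by positivity
    change (2 : ℚ) / 7 ^ (n + 1) * 7 ^ (n + 1) = 2 * ((1 : ℤ) : ℚ)
    field_simp
    norm_num
  · have h7 : (7 : ℚ) ≤ 7 ^ (n + 1) := by
      calc (7 : ℚ) = 7 ^ 1 := by norm_num
        _ ≤ 7 ^ (n + 1) := pow_le_pow_right₀ (by norm_num) (by omega)
    have hpos : (0 : ℚ) < 7 ^ (n + 1) := by positivity
    change |(2 : ℚ) / 7 ^ (n + 1)| ≤ 1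
    rw [abs_of_pos (by positivity), div_le_one hpos]
    linarith

theorem PP_nonempty (c : ℚ → Bool) : (PP c).Nonempty := by
  have hNB : NeBot (cofinite ⊓ 𝓟 BB : Filter ℚ) := by
    rw [cofinite_inf_principal_neBot_iff]
    exact BB_infinite
  obtain ⟨P, hP⟩ := exists_clusterPt_of_compactSpace (map (pat c) (cofinite ⊓ 𝓟 BB))
  exact ⟨P, hP⟩

/-- Shifting a pattern. -/
def sh (w : ℚ) (P : ℚ × Bool → Bool) : ℚ × Bool → Bool :=
  fun p => if p.2 then P (2 * w + p.1, true) else P (w + p.1, false)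

theorem PP_shift {c : ℚ → Bool} (hc : Bad c) {P : ℚ × Bool → Bool} (hP : P ∈ PP c)
    (I : Finset (ℚ × Bool)) : ∃ w, sh w P ∈ PP c ∧ ∀ p ∈ I, sh w P p ≠ P p := by
  classical
  obtain ⟨U, hL, hB⟩ := (PP_iff c P).1 hP
  obtain ⟨w, hw1, hw2⟩ := L3 hc hL hB (I.image Prod.fst)
  refine ⟨w, ?_, ?_⟩
  · rw [PP_iff]
    refine ⟨U.map (fun x => x + w), ⟨?_, ?_, ?_⟩, ?_⟩
    · rw [Ultrafilter.coe_map]
      exact (Filter.map_mono hL.np).trans (add_left_injective w).tendsto_cofinite
    · intro t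
      rw [Ultrafilter.coe_map, Filter.eventually_map]
      filter_upwards [hL.h1 (w + t)] with x hx
      simp only [sh, Bool.false_eq_true, if_false]
      rw [← hx]; congr 1; ring
    · intro t
      rw [Ultrafilter.coe_map, Filter.eventually_map]
      filter_upwards [hL.h2 (2 * w + t)] with x hx
      simp only [sh, if_true]
      rw [← hx]; congr 1; ring
    · rw [Ultrafilter.coe_map, Filter.eventually_map]
      exact hw1
  · rintro ⟨t, i⟩ hp
    have ht : t ∈ I.image Prod.fst := Finset.mem_image.2 ⟨(t, i), hp, rfl⟩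
    obtain ⟨h1, h2⟩ := hw2 t ht
    cases i with
    | false => simpa [sh] using h1
    | true => simpa [sh] using h2

/-- The opposite pattern. -/
def ng (P : ℚ × Bool → Bool) : ℚ × Bool → Bool := fun p => !P p

theorem PP_neg {c : ℚ → Bool} (hc : Bad c) {P : ℚ × Bool → Bool} (hP : P ∈ PP c) :
    ng P ∈ PP c := by
  rw [← (PP_closed c).closure_eq, mem_closure_iff]
  intro O hO hPO
  obtain ⟨I, u, hu1, hu2⟩ := isOpen_pi_iff.1 hO (ng P) hPO
  obtain ⟨w, hw1, hw2⟩ := PP_shift hc hP I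
  refine ⟨sh w P, hu2 ?_, hw1⟩
  intro p hp
  have h1 : sh w P p = ng P p := by
    have := hw2 p hp
    revert this
    unfold ng
    cases sh w P p <;> cases P p <;> simp
  rw [h1]
  exact (hu1 p hp).2

/-- The closed sets of the Baire category argument. -/
def CF (F : Finset ℚ) : Set (ℚ × Bool → Bool) :=
  {P | ∀ t, (∀ s ∈ F, P (t + s, false) ≠ P (s, false)) → P (2 * t, true) ≠ P (t, true)}

theorem CF_closed (F : Finset ℚ) : IsClosed (CF F) := by
  have h : CF F = ⋂ t : ℚ, ({P : ℚ × Bool → Bool |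
      ¬ ∀ s ∈ F, P (t + s, false) ≠ P (s, false)} ∪
      {P : ℚ × Bool → Bool | P (2 * t, true) ≠ P (t, true)}) := by
    ext P
    simp only [CF, Set.mem_ofPred_eq, Set.mem_iInter, Set.mem_union]
    constructor
    · intro hP t
      by_cases h1 : ∀ s ∈ F, P (t + s, false) ≠ P (s, false)
      · exact Or.inr (hP t h1)
      · exact Or.inl h1
    · intro hP t h1
      rcases hP t with h2 | h2
      · exact absurd h1 h2
      · exact h2
  rw [h]
  have hne : ∀ p q : ℚ × Bool, IsClopen {P : ℚ × Bool → Bool | P p ≠ P q} := by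
    intro p q
    have hcont : Continuous (fun P : ℚ × Bool → Bool => (P p, P q)) :=
      (continuous_apply p).prodMk (continuous_apply q)
    exact (isClopen_discrete {r : Bool × Bool | r.1 ≠ r.2}).preimage hcont
  refine isClosed_iInter (fun t => IsClosed.union ?_ (hne _ _).1)
  have h2 : {P : ℚ × Bool → Bool | ¬ ∀ s ∈ F, P (t + s, false) ≠ P (s, false)}
      = (⋂ s ∈ F, {P : ℚ × Bool → Bool | P (t + s, false) ≠ P (s, false)})ᶜ := by
    ext P
    simp
  rw [h2, isClosed_compl_iff]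
  exact isOpen_biInter_finset (fun s _ => (hne _ _).2)

theorem CF_neg {F : Finset ℚ} {P : ℚ × Bool → Bool} (h : ng P ∈ CF F) : P ∈ CF F := by
  intro t ht
  have h1 := h t (by
    intro s hs
    have := ht s hs
    revert this
    unfold ng
    cases P (t + s, false) <;> cases P (s, false) <;> simp)
  revert h1
  unfold ng
  cases P (2 * t, true) <;> cases P (t, true) <;> simp

theorem no_bad (c : ℚ → Bool) : ¬ Bad c := by
  classical
  intro hc
  -- the Baire category theorem
  have hcomp : CompactSpace (PP c) := isCompact_iff_compactSpace.1 (PP_closed c).isCompact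
  have hne : Nonempty (PP c) := (PP_nonempty c).to_subtype
  have hcover : (⋃ F : Finset ℚ, ((Subtype.val : PP c → (ℚ × Bool → Bool)) ⁻¹' CF F)) = univ := by
    rw [Set.eq_univ_iff_forall]
    rintro ⟨P, hP⟩
    obtain ⟨U, hL, _⟩ := (PP_iff c P).1 hP
    obtain ⟨F, hF⟩ := L2 hc hL
    exact Set.mem_iUnion.2 ⟨F, fun t ht => hF t ht⟩
  obtain ⟨F, ⟨P, hP⟩, hPint⟩ := nonempty_interior_of_iUnion_of_closed
    (fun F => (CF_closed F).preimage continuous_subtype_val) hcover
  obtain ⟨O', hO'sub, hO'open, hPO'⟩ := mem_interior.1 hPint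
  obtain ⟨O, hO, hOO'⟩ := isOpen_induced_iff.1 hO'open
  have hPO : P ∈ O := by
    have : (⟨P, hP⟩ : PP c) ∈ Subtype.val ⁻¹' O := by rw [hOO']; exact hPO'
    exact this
  have hOF : ∀ Q ∈ PP c, Q ∈ O → Q ∈ CF F := by
    intro Q hQ hQO
    have h1 : (⟨Q, hQ⟩ : PP c) ∈ O' := by rw [← hOO']; exact hQO
    exact hO'sub h1
  obtain ⟨I, u, hu1, hu2⟩ := isOpen_pi_iff.1 hO P hPO
  obtain ⟨w, hw1, hw2⟩ := PP_shift hc hP
    (I ∪ F.image (fun s => (s, false)) ∪ {((0 : ℚ), true)})
  have hPF : P ∈ CF F := hOF P hP hPO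
  have hQneg : ng (sh w P) ∈ O := by
    apply hu2
    intro p hp
    have h1 : ng (sh w P) p = P p := by
      have := hw2 p (Finset.mem_union_left _ (Finset.mem_union_left _ hp))
      revert this
      unfold ng
      cases sh w P p <;> cases P p <;> simp
    rw [h1]
    exact (hu1 p hp).2
  have hQF : sh w P ∈ CF F := CF_neg (hOF _ (PP_neg hc hw1) hQneg)
  have hFne : ∀ s ∈ F, P (w + s, false) ≠ P (s, false) := by
    intro s hs
    have := hw2 (s, false) (Finset.mem_union_left _ (Finset.mem_union_right _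
      (Finset.mem_image.2 ⟨s, hs, rfl⟩)))
    simpa [sh] using this
  have c1 := hPF w hFne
  have c2 := hQF (-w) (by
    intro s hs
    have e : w + (-w + s) = s := by ring
    simp only [sh, Bool.false_eq_true, if_false]
    rw [e]
    exact fun h => hFne s hs h.symm)
  have c3 := hw2 (0, true) (Finset.mem_union_right _ (Finset.mem_singleton_self _))
  have e1 : 2 * w + 2 * (-w) = 0 := by ring
  have e2 : 2 * w + -w = w := by ring
  simp only [sh, if_true] at c2 c3
  rw [e1, e2] at c2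
  rw [add_zero] at c3
  revert c1 c2 c3
  cases P (2 * w, true) <;> cases P (w, true) <;> cases P (0, true) <;> simp

theorem main : ¬ (∃ c : ℚ → Fin 2, ∀ X : Set ℚ, X.Infinite →
      ¬ ∃ i : Fin 2, ∀ x ∈ X, ∀ y ∈ X, c (x + y) = i) := by
  rintro ⟨c, hc⟩
  refine no_bad (fun x => decide (c x = 1)) ?_
  rintro X hX ⟨i, hi⟩
  apply hc X hX
  refine ⟨if i then 1 else 0, ?_⟩
  intro x hx y hy
  have h := hi x hx y hy
  cases i with
  | true => simpa using h
  | false =>
    have h1 : c (x + y) ≠ 1 := by simpa using h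
    simp only [Bool.false_eq_true, if_false]
    omega

end Pool.Agent.Q213.OW
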