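import Pool.Agent.Q213.OW.Basic

/-!
# The subgroups `7^{-n} ℤ` and the odd cycle of doubling

We work with the rationals whose denominator is a power of `7`.
-/

set_option autoImplicit false

namespace Pool.Agent.Q213.OW

open Filter Set Topology

/-- `7^{-n} ℤ`. -/
def An (n : ℕ) (x : ℚ) : Prop := ∃ k : ℤ, x * 7 ^ n = k

/-- Rationals whose denominator is a power of `7`. -/
def In7 (x : ℚ) : Prop := ∃ n : ℕ, An n x

/-- Twice a rational whose denominator is a power of `7`. -/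
def Ev (x : ℚ) : Prop := ∃ (n : ℕ) (k : ℤ), x * 7 ^ n = 2 * k

theorem An.add {n : ℕ} {x y : ℚ} (hx : An n x) (hy : An n y) : An n (x + y) := by
  obtain ⟨a, ha⟩ := hx
  obtain ⟨b, hb⟩ := hy
  exact ⟨a + b, by push_cast; rw [← ha, ← hb]; ring⟩

theorem An.neg {n : ℕ} {x : ℚ} (hx : An n x) : An n (-x) := by
  obtain ⟨a, ha⟩ := hx
  exact ⟨-a, by push_cast; rw [← ha]; ring⟩

theorem An.intmul {n : ℕ} {x : ℚ} (hx : An n x) (z : ℤ) : An n ((z : ℚ) * x) := by
  obtain ⟨a, ha⟩ := hx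
  exact ⟨z * a, by push_cast; rw [← ha]; ring⟩

theorem An.mono {m n : ℕ} (h : m ≤ n) {x : ℚ} (hx : An m x) : An n x := by
  obtain ⟨a, ha⟩ := hx
  obtain ⟨k, rfl⟩ := Nat.exists_eq_add_of_le h
  exact ⟨a * 7 ^ k, by push_cast; rw [← ha]; ring⟩

theorem Ev.half {x : ℚ} (hx : Ev x) : In7 (x / 2) := by
  obtain ⟨n, k, h⟩ := hx
  refine ⟨n, k, ?_⟩
  have : x / 2 * 7 ^ n = (x * 7 ^ n) / 2 := by ring
  rw [this, h]; ring

theorem Ev.in7 {x : ℚ} (hx : Ev x) : In7 x := by
  obtain ⟨n, k, h⟩ := hx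
  exact ⟨n, 2 * k, by rw [h]; push_cast; ring⟩

theorem In7.sub {x y : ℚ} (hx : In7 x) (hy : In7 y) : In7 (x - y) := by
  obtain ⟨n, hn⟩ := hx
  obtain ⟨m, hm⟩ := hy
  refine ⟨max n m, ?_⟩
  rw [sub_eq_add_neg]
  exact (hn.mono (le_max_left _ _)).add (hm.mono (le_max_right _ _)).neg

/-- An even element of `7^{-n} ℤ` has its half in `7^{-n} ℤ`. -/
theorem An.half {n : ℕ} {x : ℚ} (hx : An n x) (he : Ev x) : An n (x / 2) := by
  obtain ⟨a, ha⟩ := hx
  obtain ⟨m, k, hk⟩ := he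
  have h1 : ((a * 7 ^ m : ℤ) : ℚ) = ((2 * k * 7 ^ n : ℤ) : ℚ) := by
    push_cast
    rw [← ha, ← hk]; ring
  have h2 : a * 7 ^ m = 2 * k * 7 ^ n := by exact_mod_cast h1
  have h3 : Even a := by
    have h4 : Even (a * 7 ^ m) := by
      rw [h2]
      exact ⟨k * 7 ^ n, by ring⟩
    rcases Int.even_mul.1 h4 with h5 | h5
    · exact h5
    · exfalso
      have : ¬ Even ((7 : ℤ) ^ m) := by
        rw [Int.not_even_iff_odd]
        exact Odd.pow (by decide)
      exact this h5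
  obtain ⟨b, hb⟩ := h3
  refine ⟨b, ?_⟩
  have : x / 2 * 7 ^ n = (x * 7 ^ n) / 2 := by ring
  rw [this, ha, hb]; push_cast; ring

/-- Two elements with halves outside of the even ones have an even sum. -/
theorem ev_add_of_not {x y : ℚ} (hx : In7 x) (hy : In7 y) (nx : ¬ Ev x) (ny : ¬ Ev y) :
    Ev (x + y) := by
  obtain ⟨n, a, ha⟩ := hx
  obtain ⟨m, b, hb⟩ := hy
  have oa : Odd a := by
    rw [← Int.not_even_iff_odd]
    rintro ⟨d, hd⟩
    exact nx ⟨n, d, by rw [ha, hd]; push_cast; ring⟩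
  have ob : Odd b := by
    rw [← Int.not_even_iff_odd]
    rintro ⟨d, hd⟩
    exact ny ⟨m, d, by rw [hb, hd]; push_cast; ring⟩
  have o7 : ∀ k : ℕ, Odd ((7 : ℤ) ^ k) := fun k => Odd.pow (by decide)
  obtain ⟨d, hd⟩ := (oa.mul (o7 m)).add_odd (ob.mul (o7 n))
  refine ⟨n + m, d, ?_⟩
  have h1 : (x + y) * 7 ^ (n + m) = ((a * 7 ^ m + b * 7 ^ n : ℤ) : ℚ) := by
    push_cast
    rw [← ha, ← hb]; ring
  rw [h1, hd]; push_cast; ring

theorem ev_add {x y : ℚ} (hx : Ev x) (hy : Ev y) : Ev (x + y) := by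
  obtain ⟨n, a, ha⟩ := hx
  obtain ⟨m, b, hb⟩ := hy
  refine ⟨n + m, a * 7 ^ m + b * 7 ^ n, ?_⟩
  have h1 : (x + y) * 7 ^ (n + m) = (x * 7 ^ n) * 7 ^ m + (y * 7 ^ m) * 7 ^ n := by ring
  rw [h1, ha, hb]; push_cast; ring

/-- The properties of a set `V` that are used. -/
structure Good (V : Set ℚ) : Prop where
  inf : V.Infinite
  ev : ∀ v ∈ V, Ev v
  bd : ∀ v ∈ V, |v| ≤ 1
  mid : ∀ W : Ultrafilter ℚ, (W : Filter ℚ) ≤ cofinite →
    (∀ᶠ z in (W : Filter ℚ), 2 * z ∈ V) →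
    ∀ᶠ z in (W : Filter ℚ), ∀ᶠ y in (W : Filter ℚ), z + y ∈ V

theorem final {c : ℚ → Bool} (hc : Bad c) {V : Set ℚ} (hV : Good V) (β : Bool)
    (W : Ultrafilter ℚ) (hW : (W : Filter ℚ) ≤ cofinite)
    (hWV : ∀ᶠ z in (W : Filter ℚ), 2 * z ∈ V)
    (h2 : ∀ᶠ z in (W : Filter ℚ), c (2 * z) = β)
    (h3 : ∀ u, In7 u → ∀ᶠ z in (W : Filter ℚ), u + z ∈ V → c (u + z) = β) : False := by
  refine build hc β (fun u => In7 u ∧ c (u + u) = β ∧ ∀ᶠ y in (W : Filter ℚ), u + y ∈ V)
    (fun u hu => hu.2.1) ?_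
  intro s hs
  have hfin : ∀ᶠ x in (W : Filter ℚ), ∀ u ∈ s, x ≠ u ∧ c (u + x) = β := by
    rw [Filter.eventually_all_finset]
    intro u hu
    refine (ne_ev hW _).and ?_
    filter_upwards [h3 u (hs u hu).1, (hs u hu).2.2] with x hx1 hx2
    exact hx1 hx2
  obtain ⟨x, ⟨⟨hx1, hx2⟩, hx3⟩, hx4⟩ := (((hWV.and h2).and (hV.mid W hW hWV)).and hfin).exists
  refine ⟨x, ⟨?_, ?_, hx3⟩, ?_⟩
  · have := (hV.ev _ hx1).half
    have e : 2 * x / 2 = x := by ring
    rwa [e] at this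
  · rw [← two_mul]; exact hx2
  · intro u hu
    exact ⟨fun he => (hx4 u hu).1 he.symm, (hx4 u hu).2⟩

/-- The key finite set. -/
theorem propP {c : ℚ → Bool} (hc : Bad c) {V : Set ℚ} (hV : Good V) :
    ∃ T : Finset ℚ, (∀ t ∈ T, In7 t) ∧
      ∀ v ∈ V, ∃ t ∈ T, v / 2 + t ∈ V ∧ c (v / 2 + t) ≠ c v := by
  classical
  by_contra hcon
  set S : Finset ℚ → Set ℚ := fun T =>
    {v | v ∈ V ∧ ∀ t ∈ T, In7 t → v / 2 + t ∈ V → c (v / 2 + t) = c v} with hS
  have hne : ∀ T : Finset ℚ, (S T).Nonempty := by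
    intro T
    by_contra hT
    apply hcon
    refine ⟨T.filter (fun t => In7 t), fun t ht => (Finset.mem_filter.1 ht).2, ?_⟩
    intro v hv
    by_contra hno
    push Not at hno
    apply hT
    refine ⟨v, hv, ?_⟩
    intro t ht h7 hVt
    exact hno t (Finset.mem_filter.2 ⟨ht, h7⟩) hVt
  have hanti : ∀ T1 T2 : Finset ℚ, T1 ⊆ T2 → S T2 ⊆ S T1 := by
    intro T1 T2 h v hv
    exact ⟨hv.1, fun t ht => hv.2 t (h ht)⟩
  have hdir : Directed (· ≥ ·) (fun T : Finset ℚ => (𝓟 (S T) : Filter ℚ)) := by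
    intro T1 T2
    refine ⟨T1 ∪ T2, ?_, ?_⟩
    · exact principal_mono.2 (hanti _ _ Finset.subset_union_left)
    · exact principal_mono.2 (hanti _ _ Finset.subset_union_right)
  have hNB : NeBot (⨅ T : Finset ℚ, (𝓟 (S T) : Filter ℚ)) := by
    rw [iInf_neBot_iff_of_directed hdir]
    intro T
    exact principal_neBot_iff.2 (hne T)
  obtain ⟨W0, hW0⟩ := Ultrafilter.exists_le (⨅ T : Finset ℚ, (𝓟 (S T) : Filter ℚ))
  have hmem : ∀ T, ∀ᶠ v in (W0 : Filter ℚ), v ∈ S T := by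
    intro T
    exact hW0 (mem_iInf_of_mem T (mem_principal_self _))
  rcases Ultrafilter.le_cofinite_or_eq_pure W0 with hnp | ⟨v0, hv0⟩
  · -- the free case
    obtain ⟨β, hβ⟩ := exlim W0 c
    set W : Ultrafilter ℚ := W0.map (fun v => v / 2) with hWdef
    have hinj : Function.Injective (fun v : ℚ => v / 2) := by
      intro a b hab
      simpa using hab
    have hW : (W : Filter ℚ) ≤ cofinite := by
      rw [hWdef, Ultrafilter.coe_map]
      exact (Filter.map_mono hnp).trans hinj.tendsto_cofinite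
    refine final hc hV β W hW ?_ ?_ ?_
    · rw [hWdef, Ultrafilter.coe_map, Filter.eventually_map]
      filter_upwards [hmem ∅] with v hv
      have e : 2 * (v / 2) = v := by ring
      rw [e]; exact hv.1
    · rw [hWdef, Ultrafilter.coe_map, Filter.eventually_map]
      filter_upwards [hβ] with v hv
      have e : 2 * (v / 2) = v := by ring
      rw [e]; exact hv
    · intro u hu
      rw [hWdef, Ultrafilter.coe_map, Filter.eventually_map]
      filter_upwards [hβ, hmem {u}] with v hv hv2 hv3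
      rw [add_comm] at hv3 ⊢
      rw [hv2.2 u (Finset.mem_singleton_self u) hu hv3, hv]
  · -- the principal case: the colouring is constant on `V`
    have hv0' : ∀ T, v0 ∈ S T := by
      intro T
      have := hmem T
      rw [hv0] at this
      simpa using this
    have hv0V : v0 ∈ V := (hv0' ∅).1
    have hconst : ∀ v ∈ V, c v = c v0 := by
      intro v hv
      have h7 : In7 (v - v0 / 2) := (hV.ev v hv).in7.sub (hV.ev v0 hv0V).half
      have h := (hv0' {v - v0 / 2}).2 (v - v0 / 2) (Finset.mem_singleton_self _) h7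
      have e : v0 / 2 + (v - v0 / 2) = v := by ring
      rw [e] at h
      exact h hv
    have hNB2 : NeBot (cofinite ⊓ 𝓟 V : Filter ℚ) := by
      rw [cofinite_inf_principal_neBot_iff]
      exact hV.inf
    obtain ⟨W1, hW1⟩ := Ultrafilter.exists_le (cofinite ⊓ 𝓟 V : Filter ℚ)
    have hW1V : ∀ᶠ v in (W1 : Filter ℚ), v ∈ V :=
      hW1 (mem_inf_of_right (mem_principal_self V))
    set W : Ultrafilter ℚ := W1.map (fun v => v / 2) with hWdef
    have hinj : Function.Injective (fun v : ℚ => v / 2) := by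
      intro a b hab
      simpa using hab
    have hW : (W : Filter ℚ) ≤ cofinite := by
      rw [hWdef, Ultrafilter.coe_map]
      exact (Filter.map_mono (hW1.trans inf_le_left)).trans hinj.tendsto_cofinite
    refine final hc hV (c v0) W hW ?_ ?_ ?_
    · rw [hWdef, Ultrafilter.coe_map, Filter.eventually_map]
      filter_upwards [hW1V] with v hv
      have e : 2 * (v / 2) = v := by ring
      rw [e]; exact hv
    · rw [hWdef, Ultrafilter.coe_map, Filter.eventually_map]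
      filter_upwards [hW1V] with v hv
      have e : 2 * (v / 2) = v := by ring
      rw [e]; exact hconst v hv
    · intro u hu
      exact Eventually.of_forall (fun z hz => hconst _ hz)

theorem exists_An (T : Finset ℚ) (hT : ∀ t ∈ T, In7 t) : ∃ m, ∀ t ∈ T, An m t := by
  classical
  induction T using Finset.induction_on with
  | empty => exact ⟨0, by simp⟩
  | insert a s ha ih =>
    obtain ⟨m, hm⟩ := ih (fun t ht => hT t (Finset.mem_insert_of_mem ht))
    obtain ⟨n, hn⟩ := hT a (Finset.mem_insert_self _ _)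
    refine ⟨max m n, ?_⟩
    intro t ht
    rcases Finset.mem_insert.1 ht with rfl | ht
    · exact hn.mono (le_max_right _ _)
    · exact (hm t ht).mono (le_max_left _ _)

theorem odd_cycle (n : ℕ) : ((7 : ℤ) ^ (n + 1)) ∣ 2 ^ (3 * 7 ^ n) - 1 := by
  have h := dvd_sub_pow_of_dvd_sub (R := ℤ) (p := 7) (a := 8) (b := 1) (by norm_num) n
  have e : (2 : ℤ) ^ (3 * 7 ^ n) = 8 ^ (7 ^ n) := by
    rw [pow_mul]; norm_num
  rw [e]
  simpa using h

/-- Following the halving chain. -/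
theorem chain {c : ℚ → Bool} {V : Set ℚ} (hV : Good V) {T : Finset ℚ} {m : ℕ}
    (hT : ∀ t ∈ T, An m t)
    (hP : ∀ v ∈ V, ∃ t ∈ T, v / 2 + t ∈ V ∧ c (v / 2 + t) ≠ c v)
    {n : ℕ} (hmn : m ≤ n) {v : ℚ} (hv : v ∈ V) (hvn : An n v) (k : ℕ) :
    ∃ u ∈ V, An n u ∧ An m (2 ^ k * u - v) ∧ c u = (if Even k then c v else !c v) := by
  induction k with
  | zero =>
    refine ⟨v, hv, hvn, ⟨0, by simp⟩, by simp⟩
  | succ k ih =>
    obtain ⟨u, huV, hun, hum, hcu⟩ := ih
    obtain ⟨t, htT, hVt, hct⟩ := hP u huV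
    refine ⟨u / 2 + t, hVt, (hun.half (hV.ev u huV)).add ((hT t htT).mono hmn), ?_, ?_⟩
    · have e : (2 : ℚ) ^ (k + 1) * (u / 2 + t) - v
          = (2 ^ k * u - v) + ((2 ^ (k + 1) : ℤ) : ℚ) * t := by
        push_cast; ring
      rw [e]
      exact hum.add ((hT t htT).intmul _)
    · rw [hcu] at hct
      by_cases hk : Even k
      · have hk1 : ¬ Even (k + 1) := by
          rw [Nat.not_even_iff_odd]; exact hk.add_one
        rw [if_pos hk] at hct
        rw [if_neg hk1]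
        revert hct
        cases c (u / 2 + t) <;> cases c v <;> simp
      · have hk1 : Even (k + 1) := by
          rw [Nat.not_even_iff_odd] at hk; exact hk.add_one
        rw [if_neg hk] at hct
        rw [if_pos hk1]
        revert hct
        cases c (u / 2 + t) <;> cases c v <;> simp

/-- There is a finite set of shifts that realise the opposite colour inside `V`. -/
theorem shifts {c : ℚ → Bool} (hc : Bad c) {V : Set ℚ} (hV : Good V) :
    ∃ S : Set ℚ, S.Finite ∧ ∀ v ∈ V, ∃ w ∈ S, v + w ∈ V ∧ c (v + w) ≠ c v := by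
  obtain ⟨T, hT7, hP⟩ := propP hc hV
  obtain ⟨m, hT⟩ := exists_An T hT7
  refine ⟨{w | An m w ∧ |w| ≤ 2}, ?_, ?_⟩
  · have hfin : (((fun k : ℤ => (k : ℚ) / 7 ^ m) ''
        (Set.Icc (-(2 * 7 ^ m)) (2 * 7 ^ m)))).Finite :=
      (Set.finite_Icc _ _).image _
    refine hfin.subset ?_
    rintro w ⟨⟨k, hk⟩, hw⟩
    have h7 : (0 : ℚ) < 7 ^ m := by positivity
    refine ⟨k, ?_, ?_⟩
    · rw [abs_le] at hw
      have h1 : (k : ℚ) ≤ ((2 * 7 ^ m : ℤ) : ℚ) := by
        push_cast; rw [← hk]; exact mul_le_mul_of_nonneg_right hw.2 h7.le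
      have h2 : ((-(2 * 7 ^ m) : ℤ) : ℚ) ≤ (k : ℚ) := by
        push_cast; rw [← hk, ← neg_mul]
        exact mul_le_mul_of_nonneg_right hw.1 h7.le
      exact ⟨by exact_mod_cast h2, by exact_mod_cast h1⟩
    · change (k : ℚ) / 7 ^ m = w
      rw [← hk]
      field_simp
  · intro v hv
    obtain ⟨n0, hn0⟩ := (hV.ev v hv).in7
    set n := max m n0 with hn
    have hvn : An n v := hn0.mono (le_max_right _ _)
    have hmn : m ≤ n := le_max_left _ _
    obtain ⟨u, huV, hun, hum, hcu⟩ := chain hV hT hP hmn hv hvn (3 * 7 ^ n)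
    have hodd : ¬ Even (3 * 7 ^ n) := by
      rw [Nat.not_even_iff_odd]
      exact (by decide : Odd 3).mul (Odd.pow (by decide))
    rw [if_neg hodd] at hcu
    refine ⟨u - v, ⟨?_, ?_⟩, ?_, ?_⟩
    · obtain ⟨d, hd⟩ := odd_cycle n
      obtain ⟨a, ha⟩ := hun
      have h0 : An m (((2 ^ (3 * 7 ^ n) - 1 : ℤ) : ℚ) * u) := by
        refine An.mono (Nat.zero_le m) ⟨7 * d * a, ?_⟩
        rw [hd]
        push_cast
        rw [← ha]; ring
      have e : u - v = (2 ^ (3 * 7 ^ n) * u - v) + -(((2 ^ (3 * 7 ^ n) - 1 : ℤ) : ℚ) * u) := by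
        push_cast; ring
      rw [e]
      exact hum.add h0.neg
    · have h1 := hV.bd u huV
      have h2 := hV.bd v hv
      calc |u - v| ≤ |u| + |v| := abs_sub u v
        _ ≤ 2 := by linarith
    · have e : v + (u - v) = u := by ring
      rw [e]; exact huV
    · have e : v + (u - v) = u := by ring
      rw [e, hcu]
      cases c v <;> simp

end Pool.Agent.Q213.OW
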